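import Mathlib

/-!
# The greedy set avoiding `5w + 2x = 5y + 2z` (MP_cb51c9_co)

The greedy set is the set of the numbers `5x + y` where `0 ≤ y ≤ 4` and `x` is a sum of distinct
terms of the sequence `a 0 = 0`, `a i = ⌈(5 + 7 (a 0 + ⋯ + a (i-1))) / 2⌉`
(`a = 0, 3, 13, 59, 265, …`).

The problem file prints the recursion with a floor instead of a ceiling (`0, 2, 9, 41, …`); with
that sequence the equality fails, since `10` lies in the second set and `5·4 + 2·0 = 5·0 + 2·10`.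
-/

set_option autoImplicit false

namespace Pool.Agent.Results.MP_cb51c9_co.GreedyBlocks

open Finset

/-- `S` is free of `5w + 2x = 5y + 2z`: all solutions in `S` are trivial. -/
def Free (S : Set ℕ) : Prop :=
  ∀ w ∈ S, ∀ x ∈ S, ∀ y ∈ S, ∀ z ∈ S, 5 * w + 2 * x = 5 * y + 2 * z → w = y ∧ x = z

/-- `g 0, g 1, …` is the greedy sequence: `g 0 = 0` and `g (i + 1)` is the least integer `m > g i`
such that `{g 0, …, g i, m}` is free of `5w + 2x = 5y + 2z`. -/
def IsGreedy (g : ℕ → ℕ) : Prop :=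
  g 0 = 0 ∧ ∀ i, IsLeast {m | g i < m ∧ Free (insert m (g '' Set.Iic i))} (g (i + 1))

/-- The sequence `a 0 = 0`, `a i = round ((5 + 7 (a 0 + ⋯ + a (i-1))) / 2)` for `i ≥ 1`, where
`round` is the given rounding of rational numbers to natural numbers. -/
def seq (round : ℚ → ℕ) : ℕ → ℕ
  | 0 => 0
  | i + 1 => round ((5 + 7 * ∑ j : Fin (i + 1), (seq round j.1 : ℚ)) / 2)
  decreasing_by exact j.2

/-- The set of the finite sums of distinct terms of `a`. -/
def sums (a : ℕ → ℕ) : Set ℕ := {x | ∃ F : Finset ℕ, x = ∑ i ∈ F, a i}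

/-- The set `{5x + y : x a sum of distinct terms of a, 0 ≤ y ≤ 4}`. -/
def blocks (a : ℕ → ℕ) : Set ℕ := {n | ∃ x ∈ sums a, ∃ y ≤ 4, n = 5 * x + y}

/-! ### the sequence with the ceiling -/

/-- the shifted sequence `b i = a (i + 1)` -/
noncomputable def b (i : ℕ) : ℕ := seq Nat.ceil (i + 1)

/-- partial sums of `b` -/
noncomputable def s (i : ℕ) : ℕ := ∑ j ∈ range i, b j

lemma s_zero : s 0 = 0 := by simp [s]

lemma s_succ (i : ℕ) : s (i + 1) = s i + b i := by simp [s, Finset.sum_range_succ]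

lemma sum_seq (i : ℕ) : ∑ j : Fin (i + 1), (seq Nat.ceil j.1 : ℚ) = (s i : ℚ) := by
  rw [Fin.sum_univ_eq_sum_range (fun j => (seq Nat.ceil j : ℚ)) (i + 1),
    Finset.sum_range_succ']
  have h0 : seq Nat.ceil 0 = 0 := by rw [seq]
  rw [h0]
  simp [s, b]

lemma b_eq (i : ℕ) : b i = ⌈(5 + 7 * (s i : ℚ)) / 2⌉₊ := by
  unfold b
  rw [seq, sum_seq]

lemma b_bounds (i : ℕ) : 5 + 7 * s i ≤ 2 * b i ∧ 2 * b i ≤ 6 + 7 * s i := by
  have h1 : (5 + 7 * (s i : ℚ)) / 2 ≤ b i := by
    rw [b_eq]; exact Nat.le_ceil _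
  have h2 : (b i : ℚ) < (5 + 7 * (s i : ℚ)) / 2 + 1 := by
    rw [b_eq]; exact Nat.ceil_lt_add_one (by positivity)
  constructor
  · have : ((5 + 7 * s i : ℕ) : ℚ) ≤ ((2 * b i : ℕ) : ℚ) := by push_cast; linarith
    exact_mod_cast this
  · have : ((2 * b i : ℕ) : ℚ) < ((7 + 7 * s i : ℕ) : ℚ) := by push_cast; linarith
    have : 2 * b i < 7 + 7 * s i := by exact_mod_cast this
    omega

/-- sums of distinct terms among `b 0, …, b (i-1)` -/
def A (i : ℕ) : Set ℕ := {x | ∃ F ⊆ range i, x = ∑ j ∈ F, b j}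

lemma zero_mem (i : ℕ) : 0 ∈ A i := ⟨∅, by simp, by simp⟩

lemma le_of_mem {i x : ℕ} (h : x ∈ A i) : x ≤ s i := by
  obtain ⟨F, hF, rfl⟩ := h
  exact Finset.sum_le_sum_of_subset hF

lemma mem_succ {i x : ℕ} : x ∈ A (i + 1) ↔ x ∈ A i ∨ ∃ u ∈ A i, x = u + b i := by
  constructor
  · rintro ⟨F, hF, rfl⟩
    by_cases h : i ∈ F
    · refine Or.inr ⟨∑ j ∈ F.erase i, b j, ⟨F.erase i, ?_, rfl⟩, ?_⟩
      · intro j hj
        have h1 := hF (Finset.mem_of_mem_erase hj)
        have h2 := Finset.ne_of_mem_erase hj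
        rw [Finset.mem_range] at h1 ⊢
        omega
      · rw [Finset.sum_erase_add _ _ h]
    · refine Or.inl ⟨F, ?_, rfl⟩
      intro j hj
      have h1 := hF hj
      have h2 : j ≠ i := fun e => h (e ▸ hj)
      rw [Finset.mem_range] at h1 ⊢
      omega
  · rintro (⟨F, hF, rfl⟩ | ⟨u, ⟨F, hF, rfl⟩, rfl⟩)
    · exact ⟨F, hF.trans (Finset.range_mono (Nat.le_succ i)), rfl⟩
    · have h : i ∉ F := fun hi => by simpa using hF hi
      refine ⟨insert i F, ?_, ?_⟩
      · intro j hj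
        rw [Finset.mem_insert] at hj
        rcases hj with rfl | hj
        · simp
        · have := Finset.mem_range.1 (hF hj)
          rw [Finset.mem_range]; omega
      · rw [Finset.sum_insert h]; ring

lemma mono {i j : ℕ} (h : i ≤ j) {x : ℕ} (hx : x ∈ A i) : x ∈ A j := by
  obtain ⟨F, hF, rfl⟩ := hx
  exact ⟨F, hF.trans (Finset.range_mono h), rfl⟩

lemma mem_sums_iff {x : ℕ} : x ∈ sums (seq Nat.ceil) ↔ ∃ i, x ∈ A i := by
  constructor
  · rintro ⟨F, rfl⟩
    have h0 : seq Nat.ceil 0 = 0 := by rw [seq]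
    obtain ⟨N, hN⟩ : ∃ N, F ⊆ range (N + 1) := by
      obtain ⟨N, hN⟩ := F.exists_nat_subset_range
      exact ⟨N, hN.trans (Finset.range_mono (Nat.le_succ N))⟩
    refine ⟨N, (range N).filter (fun j => j + 1 ∈ F), Finset.filter_subset _ _, ?_⟩
    rw [Finset.sum_filter]
    have h1 : ∑ i ∈ F, seq Nat.ceil i = ∑ i ∈ range (N + 1), if i ∈ F then seq Nat.ceil i else 0 := by
      rw [← Finset.sum_filter]
      congr 1
      ext i
      rw [Finset.mem_filter]
      exact ⟨fun h => ⟨hN h, h⟩, fun h => h.2⟩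
    rw [h1, Finset.sum_range_succ', h0]
    simp [b]
  · rintro ⟨i, F, hF, rfl⟩
    refine ⟨F.map ⟨Nat.succ, Nat.succ_injective⟩, ?_⟩
    rw [Finset.sum_map]
    rfl

/-! ### the set is free -/

lemma free_aux (i : ℕ) : ∀ x ∈ A i, ∀ x' ∈ A i, ∀ y ∈ A i, ∀ y' ∈ A i, ∀ η : ℤ, |η| ≤ 4 →
    2 * ((x : ℤ) - x') = 5 * ((y : ℤ) - y') + η → x = x' ∧ y = y' := by
  induction i with
  | zero =>
    intro x hx x' hx' y hy y' hy' η _ _
    have h1 := le_of_mem hx
    have h2 := le_of_mem hx'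
    have h3 := le_of_mem hy
    have h4 := le_of_mem hy'
    rw [s_zero] at h1 h2 h3 h4
    omega
  | succ i ih =>
    intro x hx x' hx' y hy y' hy' η hη h
    have hb := (b_bounds i).1
    rw [abs_le] at hη
    obtain ⟨hη1, hη2⟩ := hη
    rw [mem_succ] at hx hx' hy hy'
    rcases hx with hx | ⟨u, hu, rfl⟩ <;> rcases hx' with hx' | ⟨u', hu', rfl⟩ <;>
    rcases hy with hy | ⟨v, hv, rfl⟩ <;> rcases hy' with hy' | ⟨v', hv', rfl⟩
    all_goals
      try have l1 := le_of_mem hx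
      try have l2 := le_of_mem hx'
      try have l3 := le_of_mem hy
      try have l4 := le_of_mem hy'
      try have l5 := le_of_mem hu
      try have l6 := le_of_mem hu'
      try have l7 := le_of_mem hv
      try have l8 := le_of_mem hv'
      push_cast at h
    · exact ih _ hx _ hx' _ hy _ hy' η (abs_le.2 ⟨hη1, hη2⟩) h
    · omega
    · omega
    · obtain ⟨e1, e2⟩ := ih _ hx _ hx' _ hv _ hv' η (abs_le.2 ⟨hη1, hη2⟩) (by linarith)
      exact ⟨e1, by omega⟩
    · omega
    · omega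
    · omega
    · omega
    · omega
    · omega
    · omega
    · omega
    · obtain ⟨e1, e2⟩ := ih _ hu _ hu' _ hy _ hy' η (abs_le.2 ⟨hη1, hη2⟩) (by linarith)
      exact ⟨by omega, e2⟩
    · omega
    · omega
    · obtain ⟨e1, e2⟩ := ih _ hu _ hu' _ hv _ hv' η (abs_le.2 ⟨hη1, hη2⟩) (by linarith)
      exact ⟨by omega, by omega⟩

/-- the set of the blocks -/
def T : Set ℕ := blocks (seq Nat.ceil)

lemma mem_T {n : ℕ} : n ∈ T ↔ ∃ i, n / 5 ∈ A i := by
  unfold T blocks
  constructor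
  · rintro ⟨x, hx, y, hy, rfl⟩
    have : (5 * x + y) / 5 = x := by omega
    rw [this]
    exact mem_sums_iff.1 hx
  · intro h
    exact ⟨n / 5, mem_sums_iff.2 h, n % 5, by omega, by omega⟩

lemma free_T : Free T := by
  intro w hw x hx y hy z hz h
  obtain ⟨i1, h1⟩ := mem_T.1 hw
  obtain ⟨i2, h2⟩ := mem_T.1 hx
  obtain ⟨i3, h3⟩ := mem_T.1 hy
  obtain ⟨i4, h4⟩ := mem_T.1 hz
  obtain ⟨N, e1, e2, e3, e4⟩ : ∃ N, i1 ≤ N ∧ i2 ≤ N ∧ i3 ≤ N ∧ i4 ≤ N :=
    ⟨i1 + i2 + i3 + i4, by omega, by omega, by omega, by omega⟩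
  -- `5 (w - y) = 2 (z - x)`, so `z - x = 5 δ` with `δ = z / 5 - x / 5`
  have hmod : z % 5 = x % 5 := by omega
  have key := free_aux N _ (mono e4 h4) _ (mono e2 h2) _ (mono e1 h1) _ (mono e3 h3)
    ((w % 5 : ℕ) - (y % 5 : ℕ) : ℤ) (by rw [abs_le]; omega) (by omega)
  omega

/-! ### the covering -/

lemma cover (i : ℕ) : ∀ k : ℤ, -5 * (s i : ℤ) - 4 ≤ k → k ≤ 7 * (s i : ℤ) + 4 →
    ∃ x ∈ A i, ∃ y ∈ A i, ∃ y' ∈ A i, ∃ η : ℤ, -4 ≤ η ∧ η ≤ 4 ∧
      k = 2 * (x : ℤ) + 5 * ((y : ℤ) - y') + η := by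
  induction i with
  | zero =>
    intro k h1 h2
    rw [s_zero] at h1 h2
    exact ⟨0, zero_mem 0, 0, zero_mem 0, 0, zero_mem 0, k, by simpa using h1, by simpa using h2,
      by simp⟩
  | succ i ih =>
    intro k h1 h2
    obtain ⟨hb1, hb2⟩ := b_bounds i
    rw [s_succ] at h1 h2
    push_cast at h1 h2
    have step : ∀ α β γ : ℕ, α ≤ 1 → β ≤ 1 → γ ≤ 1 →
        -5 * (s i : ℤ) - 4 ≤ k - (2 * α + 5 * (β - γ)) * (b i : ℤ) →
        k - (2 * α + 5 * (β - γ)) * (b i : ℤ) ≤ 7 * (s i : ℤ) + 4 →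
        ∃ x ∈ A (i + 1), ∃ y ∈ A (i + 1), ∃ y' ∈ A (i + 1), ∃ η : ℤ, -4 ≤ η ∧ η ≤ 4 ∧
          k = 2 * (x : ℤ) + 5 * ((y : ℤ) - y') + η := by
      intro α β γ hα hβ hγ g1 g2
      obtain ⟨x, hx, y, hy, y', hy', η, hη1, hη2, he⟩ := ih _ g1 g2
      have lift : ∀ (ε : ℕ), ε ≤ 1 → ∀ u ∈ A i, u + ε * b i ∈ A (i + 1) := by
        intro ε hε u hu
        rw [mem_succ]
        interval_cases ε
        · left; simpa using hu
        · right; exact ⟨u, hu, by ring⟩
      refine ⟨x + α * b i, lift α hα x hx, y + β * b i, lift β hβ y hy, y' + γ * b i,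
        lift γ hγ y' hy', η, hη1, hη2, ?_⟩
      push_cast
      linarith
    by_cases c1 : k ≤ 7 * (s i : ℤ) + 4 - 5 * b i
    · exact step 0 0 1 (by norm_num) (by norm_num) (by norm_num) (by push_cast; omega)
        (by push_cast; omega)
    by_cases c2 : k ≤ 7 * (s i : ℤ) + 4 - 3 * b i
    · exact step 1 0 1 (by norm_num) (by norm_num) (by norm_num) (by push_cast; omega)
        (by push_cast; omega)
    by_cases c3 : k ≤ 7 * (s i : ℤ) + 4
    · exact step 0 0 0 (by norm_num) (by norm_num) (by norm_num) (by push_cast; omega)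
        (by push_cast; omega)
    by_cases c4 : k ≤ 7 * (s i : ℤ) + 4 + 2 * b i
    · exact step 1 0 0 (by norm_num) (by norm_num) (by norm_num) (by push_cast; omega)
        (by push_cast; omega)
    by_cases c5 : k ≤ 7 * (s i : ℤ) + 4 + 5 * b i
    · exact step 0 1 0 (by norm_num) (by norm_num) (by norm_num) (by push_cast; omega)
        (by push_cast; omega)
    · exact step 1 1 0 (by norm_num) (by norm_num) (by norm_num) (by push_cast; omega)
        (by push_cast; omega)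

lemma lt_b (i : ℕ) : i < b i := by
  induction i with
  | zero => have := (b_bounds 0).1; omega
  | succ i ih =>
    have h1 := (b_bounds (i + 1)).1
    rw [s_succ] at h1
    omega

lemma b_mono {i j : ℕ} (h : i ≤ j) : b i ≤ b j := by
  induction j, h using Nat.le_induction with
  | base => exact le_rfl
  | succ j hj ih =>
    have h1 := (b_bounds (j + 1)).1
    rw [s_succ] at h1
    omega

/-- the elements below `b i` use only the terms before `b i` -/
lemma mem_of_lt {i j x : ℕ} (hx : x ∈ A j) (h : x < b i) : x ∈ A i := by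
  obtain ⟨F, hF, rfl⟩ := hx
  refine ⟨F, fun k hk => ?_, rfl⟩
  rw [Finset.mem_range]
  by_contra hc
  push Not at hc
  have h1 : b k ≤ ∑ j ∈ F, b j := Finset.single_le_sum (f := b) (fun _ _ => Nat.zero_le _) hk
  have h2 := b_mono hc
  omega

lemma conflict (m : ℕ) : (∀ i, m ∉ A i) → ∃ i, ∃ x ∈ A i, ∃ y ∈ A i, ∃ y' ∈ A i, ∃ η : ℤ,
    x < m ∧ y < m ∧ y' < m ∧ -4 ≤ η ∧ η ≤ 4 ∧ 2 * ((m : ℤ) - x) = 5 * ((y : ℤ) - y') + η := by
  induction m using Nat.strong_induction_on with
  | _ m ih =>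
    intro hm
    have hex : ∃ i, m < b i := ⟨m, lt_b m⟩
    classical
    let i := Nat.find hex
    have hi : m < b i := Nat.find_spec hex
    by_cases hs : s i < m
    · obtain ⟨hb1, hb2⟩ := b_bounds i
      obtain ⟨x, hx, y, hy, y', hy', η, h1, h2, h3⟩ := cover i (2 * m) (by omega) (by omega)
      have l1 := le_of_mem hx
      have l2 := le_of_mem hy
      have l3 := le_of_mem hy'
      exact ⟨i, x, hx, y, hy, y', hy', η, by omega, by omega, by omega, h1, h2, by linarith⟩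
    · push Not at hs
      have hm0 : m ≠ 0 := by
        rintro rfl
        exact hm 0 (zero_mem 0)
      obtain ⟨j, hj⟩ : ∃ j, i = j + 1 := by
        cases hi0 : i with
        | zero => rw [hi0, s_zero] at hs; omega
        | succ j => exact ⟨j, rfl⟩
      have hbj : b j ≤ m := by
        have := Nat.find_min hex (m := j) (by change j < i; omega)
        omega
      rw [hj, s_succ] at hs
      have hbpos : 0 < b j := by have := (b_bounds j).1; omega
      have hsj : s j < b j := by have := (b_bounds j).1; omega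
      have hm' : ∀ k, m - b j ∉ A k := by
        intro k hk
        have h1 : m - b j ∈ A j := mem_of_lt hk (by omega)
        exact hm (j + 1) (mem_succ.2 (Or.inr ⟨m - b j, h1, by omega⟩))
      obtain ⟨k, x, hx, y, hy, y', hy', η, h1, h2, h3, h4, h5, h6⟩ :=
        ih (m - b j) (by omega) hm'
      have hxj : x ∈ A j := mem_of_lt hx (by omega)
      have hyj : y ∈ A j := mem_of_lt hy (by omega)
      have hyj' : y' ∈ A j := mem_of_lt hy' (by omega)
      refine ⟨j + 1, x + b j, mem_succ.2 (Or.inr ⟨x, hxj, rfl⟩), y, mono (Nat.le_succ j) hyj,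
        y', mono (Nat.le_succ j) hyj', η, by omega, by omega, by omega, h4, h5, ?_⟩
      rw [← h6]
      push_cast [hbj]
      ring

lemma not_free {n : ℕ} (hn : n ∉ T) {S : Set ℕ} (hS : ∀ t ∈ T, t < n → t ∈ S) (hnS : n ∈ S) :
    ¬ Free S := by
  intro hf
  have hm : ∀ i, n / 5 ∉ A i := fun i hi => hn (mem_T.2 ⟨i, hi⟩)
  obtain ⟨i, x, hx, y, hy, y', hy', η, h1, h2, h3, h4, h5, h6⟩ := conflict (n / 5) hm
  -- `5 (w - y₀) = 2 (n - t)` with `t = 5 x + n % 5`, `w - y₀ = 2 (n / 5 - x) = 5 (y - y') + η`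
  have ht : 5 * x + n % 5 ∈ S := hS _ (mem_T.2 ⟨i, by
    have : (5 * x + n % 5) / 5 = x := by omega
    rw [this]; exact hx⟩) (by omega)
  obtain ⟨p, q, hp, hq, hpq⟩ : ∃ p q : ℕ, p ≤ 4 ∧ q ≤ 4 ∧ (p : ℤ) - q = η :=
    ⟨η.toNat, (-η).toNat, by omega, by omega, by omega⟩
  have hw : 5 * y + p ∈ S := hS _ (mem_T.2 ⟨i, by
    have : (5 * y + p) / 5 = y := by omega
    rw [this]; exact hy⟩) (by omega)
  have hy0 : 5 * y' + q ∈ S := hS _ (mem_T.2 ⟨i, by
    have : (5 * y' + q) / 5 = y' := by omega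
    rw [this]; exact hy'⟩) (by omega)
  obtain ⟨-, h⟩ := hf _ hw _ ht _ hy0 _ hnS (by omega)
  omega

/-! ### the greedy sequence -/

lemma Free.mono {S S' : Set ℕ} (h : Free S') (hs : S ⊆ S') : Free S :=
  fun w hw x hx y hy z hz => h w (hs hw) x (hs hx) y (hs hy) z (hs hz)

lemma infinite_T : T.Infinite := by
  rw [Set.infinite_iff_exists_gt]
  intro n
  refine ⟨5 * b n, mem_T.2 ⟨n + 1, ?_⟩, ?_⟩
  · have : 5 * b n / 5 = b n := by omega
    rw [this]
    exact mem_succ.2 (Or.inr ⟨0, zero_mem n, by simp⟩)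
  · have := lt_b n
    omega

/-- the increasing enumeration of `T` -/
noncomputable def t (i : ℕ) : ℕ := Nat.nth (· ∈ T) i

lemma t_mem (i : ℕ) : t i ∈ T := Nat.nth_mem_of_infinite infinite_T i

lemma t_strictMono : StrictMono t := Nat.nth_strictMono infinite_T

lemma range_t : Set.range t = T := Nat.range_nth_of_infinite infinite_T

lemma t_greedy : IsGreedy t := by
  constructor
  · have h0 : (0 : ℕ) ∈ T := mem_T.2 ⟨0, by simpa using zero_mem 0⟩
    have : t 0 ≤ 0 := by
      unfold t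
      rw [Nat.nth_zero]
      exact Nat.sInf_le h0
    omega
  · intro i
    refine ⟨⟨t_strictMono (Nat.lt_succ_self i), ?_⟩, ?_⟩
    · refine free_T.mono ?_
      rw [Set.insert_subset_iff]
      refine ⟨t_mem _, ?_⟩
      rintro _ ⟨j, _, rfl⟩
      exact t_mem j
    · rintro m ⟨hm1, hm2⟩
      by_contra hc
      push Not at hc
      have hmT : m ∉ T := by
        intro h
        rw [← range_t] at h
        obtain ⟨j, rfl⟩ := h
        have h1 := t_strictMono.lt_iff_lt.1 hm1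
        have h2 := t_strictMono.lt_iff_lt.1 hc
        omega
      refine not_free hmT ?_ (Set.mem_insert _ _) hm2
      intro u hu hum
      rw [← range_t] at hu
      obtain ⟨j, rfl⟩ := hu
      refine Set.mem_insert_of_mem _ ⟨j, ?_, rfl⟩
      have := t_strictMono.lt_iff_lt.1 (hum.trans hc)
      rw [Set.mem_Iic]
      omega

lemma greedy_unique {g g' : ℕ → ℕ} (hg : IsGreedy g) (hg' : IsGreedy g') : g = g' := by
  have key : ∀ n, ∀ i ≤ n, g i = g' i := by
    intro n
    induction n with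
    | zero =>
      intro i hi
      have : i = 0 := by omega
      rw [this, hg.1, hg'.1]
    | succ n ih =>
      intro i hi
      rcases Nat.lt_or_ge i (n + 1) with h | h
      · exact ih i (by omega)
      · have : i = n + 1 := by omega
        subst this
        have h1 := hg.2 n
        have h2 := hg'.2 n
        have h3 : g '' Set.Iic n = g' '' Set.Iic n := Set.image_congr fun j hj => ih j hj
        rw [h3, ih n le_rfl] at h1
        exact h1.unique h2
  funext i
  exact key i i le_rfl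

/-- **Full answer to Q1.** The greedy sequence `g` exists and is unique. With the sequence
`a 0 = 0`, `a i = ⌈(5 + 7 (a 0 + ⋯ + a (i-1))) / 2⌉`, the greedy set is exactly the set of the
numbers `5x + y` with `x` a sum of distinct terms of `a` and `0 ≤ y ≤ 4`. With the floor in place
of the ceiling, as printed in the problem file, the equality fails. -/
theorem result :
    (∃! g : ℕ → ℕ, IsGreedy g) ∧
    ∀ g : ℕ → ℕ, IsGreedy g →
      Set.range g = blocks (seq Nat.ceil) ∧ Set.range g ≠ blocks (seq Nat.floor) := by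
  refine ⟨⟨t, t_greedy, fun g hg => greedy_unique hg t_greedy⟩, ?_⟩
  intro g hg
  have h1 : Set.range g = T := by rw [greedy_unique hg t_greedy, range_t]
  refine ⟨h1, ?_⟩
  rw [h1]
  intro h
  have h0 : (0 : ℕ) ∈ T := mem_T.2 ⟨0, by simpa using zero_mem 0⟩
  have h4 : (4 : ℕ) ∈ T := mem_T.2 ⟨0, by simpa using zero_mem 0⟩
  have h10 : (10 : ℕ) ∈ T := by
    rw [h]
    refine ⟨2, ⟨{1}, ?_⟩, 0, by norm_num, by norm_num⟩
    have e0 : seq Nat.floor 0 = 0 := by rw [seq]
    have e1 : seq Nat.floor 1 = 2 := by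
      rw [seq, Fin.sum_univ_one]
      have : seq Nat.floor ((0 : Fin (0 + 1)) : ℕ) = 0 := e0
      rw [this, Nat.floor_eq_iff (by norm_num)]
      norm_num
    rw [Finset.sum_singleton, e1]
  have := free_T 4 h4 0 h0 0 h0 10 h10 (by norm_num)
  omega

end Pool.Agent.Results.MP_cb51c9_co.GreedyBlocks
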